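import Pool.Agent.H31.YL3

namespace Pool.Agent.Results.MP_269158_co.AntichainOrder

/-- The restricted Young lattice `L(n,n)`: weakly decreasing sequences of `n` parts in `{0,…,n}`,
ordered coordinatewise. -/
abbrev L (n : ℕ) := {l : Fin n → Fin (n + 1) // Antitone l}

/-- The number of antichains of `L(n,n)` (the empty one included). -/
noncomputable def A (n : ℕ) : ℕ := Nat.card {X : Set (L n) // IsAntichain (· ≤ ·) X}

theorem result : ∃ c C : ℝ, 0 < c ∧ 0 < C ∧ ∀ n : ℕ, 2 ≤ n →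
    c * (((2 * n).choose n : ℝ) / (n : ℝ) ^ (3 / 2 : ℝ)) ≤ Real.logb 2 (A n) ∧
      Real.logb 2 (A n) ≤ C * (((2 * n).choose n : ℝ) / (n : ℝ) ^ (3 / 2 : ℝ)) := by
  refine ⟨1 / 34, 32000, by norm_num, by norm_num, fun n hn => ?_⟩
  have n0 : (0 : ℝ) < n := by exact_mod_cast (by omega : 0 < n)
  have e : (n : ℝ) ^ (3 / 2 : ℝ) = n * √n := by
    rw [Real.sqrt_eq_rpow, show (3 / 2 : ℝ) = 1 + 1 / 2 by norm_num, Real.rpow_add n0, Real.rpow_one]
  rw [e, two_mul]
  refine ⟨le_of_eq_of_le ?_ (H31.YL.lower n hn), H31.YL.upper' n (by omega)⟩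
  field_simp

end Pool.Agent.Results.MP_269158_co.AntichainOrder
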